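import Mathlib
import Pool.Agent.Lib.PNT.Main

/-!
Large Sidon subsets of finite sets of reals: a random affine map to a prime field,
cells indexed by Ruzsa's Sidon set modulo `p (p - 1)`, and the Bonferroni inequality.
-/

set_option autoImplicit false

namespace Pool.Agent.P.MP_ca07c0_co

open Finset Filter Topology

/-- An injective Freiman homomorphism from a finite set of reals to the integers. -/
lemma exists_int_model (A : Finset ℝ) :
    ∃ f : ℝ → ℤ, Set.InjOn f A ∧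
      ∀ a ∈ A, ∀ b ∈ A, ∀ c ∈ A, ∀ d ∈ A, a + b = c + d → f a + f b = f c + f d := by
  classical
  obtain ⟨φ, hφ⟩ := Module.exists_dual_forall_apply_ne_zero (K := ℚ) (M := ℝ)
    (ι := {x : ℝ × ℝ // x ∈ A.offDiag}) (fun x => x.1.1 - x.1.2)
    (fun x => sub_ne_zero.2 (Finset.mem_offDiag.1 x.2).2.2)
  obtain ⟨D, hD⟩ := IsLocalization.exist_integer_multiples_of_finset (nonZeroDivisors ℤ)
    (A.image φ)
  have hD0 : ((D : ℤ) : ℚ) ≠ 0 := by exact_mod_cast nonZeroDivisors.ne_zero D.2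
  have key : ∀ a ∈ A, ((⌊((D : ℤ) : ℚ) * φ a⌋ : ℤ) : ℚ) = ((D : ℤ) : ℚ) * φ a := by
    intro a ha
    obtain ⟨z, hz⟩ := hD (φ a) (Finset.mem_image_of_mem _ ha)
    have : ((D : ℤ) : ℚ) * φ a = (z : ℚ) := by
      simpa [zsmul_eq_mul] using hz.symm
    rw [this, Int.floor_intCast]
  refine ⟨fun a => ⌊((D : ℤ) : ℚ) * φ a⌋, fun a ha b hb hab => ?_, fun a ha b hb c hc d hd h => ?_⟩
  · by_contra hne
    have h1 := hφ ⟨(a, b), Finset.mem_offDiag.2 ⟨ha, hb, hne⟩⟩
    have h2 : ((D : ℤ) : ℚ) * φ a = ((D : ℤ) : ℚ) * φ b := by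
      rw [← key a ha, ← key b hb]
      exact_mod_cast hab
    apply h1
    simp only [map_sub]
    exact sub_eq_zero.2 (mul_left_cancel₀ hD0 h2)
  · have h2 : φ a + φ b = φ c + φ d := by rw [← map_add, ← map_add, h]
    have h3 : ((⌊((D : ℤ) : ℚ) * φ a⌋ + ⌊((D : ℤ) : ℚ) * φ b⌋ : ℤ) : ℚ)
        = ((⌊((D : ℤ) : ℚ) * φ c⌋ + ⌊((D : ℤ) : ℚ) * φ d⌋ : ℤ) : ℚ) := by
      push_cast
      rw [key a ha, key b hb, key c hc, key d hd, ← mul_add, ← mul_add, h2]
    exact_mod_cast h3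

/-- The same with values in a prime field of arbitrarily large size. -/
lemma exists_prime_model (A : Finset ℝ) (B : ℕ) :
    ∃ Q : ℕ, Q.Prime ∧ B ≤ Q ∧ ∃ x : ℝ → ZMod Q, Set.InjOn x A ∧
      ∀ a ∈ A, ∀ b ∈ A, ∀ c ∈ A, ∀ d ∈ A, a + b = c + d → x a + x b = x c + x d := by
  classical
  obtain ⟨f, hf, hf2⟩ := exists_int_model A
  obtain ⟨Q, hQ, hQp⟩ := Nat.exists_infinite_primes
    (B + 2 * (A.sup fun a => (f a).natAbs) + 1)
  refine ⟨Q, hQp, by omega, fun a => (f a : ZMod Q), fun a ha b hb hab => ?_,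
    fun a ha b hb c hc d hd h => ?_⟩
  · apply hf ha hb
    have h1 : (Q : ℤ) ∣ f b - f a := (ZMod.intCast_eq_intCast_iff_dvd_sub _ _ _).1 hab
    have h2 : (f a).natAbs ≤ A.sup fun a => (f a).natAbs :=
      Finset.le_sup (f := fun a => (f a).natAbs) ha
    have h3 : (f b).natAbs ≤ A.sup fun a => (f a).natAbs :=
      Finset.le_sup (f := fun a => (f a).natAbs) hb
    have h4 := Int.eq_zero_of_dvd_of_natAbs_lt_natAbs h1 (by omega)
    omega
  · have := hf2 a ha b hb c hc d hd h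
    simp only
    exact_mod_cast congrArg (fun z : ℤ => (z : ZMod Q)) this

section Count

variable {F : Type*} [Field F] [Fintype F] [DecidableEq F]

lemma sum_one (C : Finset F) (u : F) :
    ∑ ω : F × F, (if ω.1 * u + ω.2 ∈ C then (1 : ℝ) else 0) = Fintype.card F * C.card := by
  rw [Fintype.sum_prod_type]
  have : ∀ α : F, ∑ β : F, (if α * u + β ∈ C then (1 : ℝ) else 0) = C.card := by
    intro α
    rw [← Equiv.sum_comp (Equiv.addLeft (-(α * u)))]
    simp
  simp [this]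

lemma sum_two (C : Finset F) {u v : F} (huv : u ≠ v) :
    ∑ ω : F × F, (if ω.1 * u + ω.2 ∈ C then (1 : ℝ) else 0) *
      (if ω.1 * v + ω.2 ∈ C then (1 : ℝ) else 0) = C.card ^ 2 := by
  have hne : u - v ≠ 0 := sub_ne_zero.2 huv
  let e : F × F ≃ F × F :=
    { toFun := fun ω => (ω.1 * u + ω.2, ω.1 * v + ω.2)
      invFun := fun y => ((y.1 - y.2) / (u - v), y.1 - (y.1 - y.2) / (u - v) * u)
      left_inv := fun ω => by
        ext
        · simp only; field_simp; ring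
        · simp only; field_simp; ring
      right_inv := fun y => by
        ext
        · simp only; ring
        · simp only; field_simp; ring }
  have := Equiv.sum_comp e (fun y : F × F => (if y.1 ∈ C then (1 : ℝ) else 0) *
    (if y.2 ∈ C then (1 : ℝ) else 0))
  simp only [e, Equiv.coe_fn_mk] at this
  rw [this, Fintype.sum_prod_type]
  have h2 := Finset.sum_mul_sum Finset.univ Finset.univ
    (fun y : F => if y ∈ C then (1 : ℝ) else 0) (fun y : F => if y ∈ C then (1 : ℝ) else 0)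
  rw [← h2]
  simp [sq]

lemma bonf (n : ℕ) : (3 * (n : ℝ) - (n : ℝ) ^ 2) / 2 ≤ if 0 < n then 1 else 0 := by
  split_ifs with h
  · have h1 : (1 : ℝ) ≤ n := by exact_mod_cast h
    rcases Nat.lt_or_ge n 2 with h2 | h2
    · have : n = 1 := by omega
      subst this; norm_num
    · have h3 : (2 : ℝ) ≤ n := by exact_mod_cast h2
      nlinarith
  · have : n = 0 := by omega
    subst this; norm_num

/-- Second moment bound for the number of affine maps sending some point of `A` into `C`. -/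
lemma hit_bound {α : Type*} (A : Finset α) (x : α → F) (hx : Set.InjOn x A) (C : Finset F) :
    (A.card : ℝ) * Fintype.card F * C.card - (A.card : ℝ) ^ 2 * C.card ^ 2 / 2 ≤
      ∑ ω : F × F, (if ∃ a ∈ A, ω.1 * x a + ω.2 ∈ C then (1 : ℝ) else 0) := by
  classical
  have h1 : ∀ ω : F × F,
      (3 * (∑ a ∈ A, (if ω.1 * x a + ω.2 ∈ C then (1 : ℝ) else 0)) -
        ∑ a ∈ A, ∑ b ∈ A, (if ω.1 * x a + ω.2 ∈ C then (1 : ℝ) else 0) *
          (if ω.1 * x b + ω.2 ∈ C then (1 : ℝ) else 0)) / 2 ≤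
        (if ∃ a ∈ A, ω.1 * x a + ω.2 ∈ C then (1 : ℝ) else 0) := by
    intro ω
    rw [← Finset.sum_mul_sum, Finset.sum_boole, ← sq]
    refine (bonf _).trans_eq ?_
    congr 1
    simp [Finset.card_pos, Finset.Nonempty]
  refine le_trans ?_ (Finset.sum_le_sum fun ω _ => h1 ω)
  rw [← Finset.sum_div, Finset.sum_sub_distrib, ← Finset.mul_sum, Finset.sum_comm,
    Finset.sum_comm (s := Finset.univ)]
  simp only [sum_one]
  have h2 : ∀ a ∈ A, ∑ ω : F × F, ∑ b ∈ A, (if ω.1 * x a + ω.2 ∈ C then (1 : ℝ) else 0) *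
      (if ω.1 * x b + ω.2 ∈ C then (1 : ℝ) else 0) ≤
      Fintype.card F * C.card + A.card * C.card ^ 2 := by
    intro a ha
    rw [Finset.sum_comm, ← Finset.add_sum_erase _ _ ha]
    have h3 : ∑ ω : F × F, (if ω.1 * x a + ω.2 ∈ C then (1 : ℝ) else 0) *
        (if ω.1 * x a + ω.2 ∈ C then (1 : ℝ) else 0) = Fintype.card F * C.card := by
      rw [← sum_one C (x a)]
      exact Finset.sum_congr rfl fun ω _ => by split_ifs <;> simp
    rw [h3]
    gcongr
    calc ∑ b ∈ A.erase a, ∑ ω : F × F, (if ω.1 * x a + ω.2 ∈ C then (1 : ℝ) else 0) *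
          (if ω.1 * x b + ω.2 ∈ C then (1 : ℝ) else 0)
        = ∑ b ∈ A.erase a, (C.card : ℝ) ^ 2 := by
          refine Finset.sum_congr rfl fun b hb => sum_two C fun h => ?_
          exact (Finset.mem_erase.1 hb).1 (hx (Finset.mem_of_mem_erase hb) ha h.symm)
      _ ≤ ∑ b ∈ A, (C.card : ℝ) ^ 2 :=
          Finset.sum_le_sum_of_subset_of_nonneg (Finset.erase_subset _ _) (fun _ _ _ => by positivity)
      _ = A.card * C.card ^ 2 := by simp
  have h4 := Finset.sum_le_sum h2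
  simp only [Finset.sum_const, nsmul_eq_mul] at h4 ⊢
  nlinarith

/-- Selection of a Sidon subset from a family of cells. -/
lemma exists_sidon_of_cells {ι : Type*} [Fintype ι] (A : Finset ℝ) (x : ℝ → F)
    (hx : Set.InjOn x A)
    (hx2 : ∀ a ∈ A, ∀ b ∈ A, ∀ c ∈ A, ∀ d ∈ A, a + b = c + d → x a + x b = x c + x d)
    (C : ι → Finset F) (L : ℕ) (hL : ∀ i, (C i).card = L)
    (hC : ∀ i j k l, ∀ u ∈ C i, ∀ v ∈ C j, ∀ w ∈ C k, ∀ z ∈ C l, u + v = w + z →
      (i = k ∧ j = l) ∨ (i = l ∧ j = k)) :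
    ∃ S ⊆ A, (Fintype.card ι : ℝ) * (A.card * L / Fintype.card F -
        (A.card * L / Fintype.card F) ^ 2 / 2) ≤ S.card ∧
      ∀ a ∈ S, ∀ b ∈ S, ∀ c ∈ S, ∀ d ∈ S,
        a + b = c + d → (a = c ∧ b = d) ∨ (a = d ∧ b = c) := by
  classical
  have hq : (0 : ℝ) < Fintype.card F := by exact_mod_cast Fintype.card_pos
  have h1 : ∑ _ω : F × F, (Fintype.card ι : ℝ) * (A.card * L / Fintype.card F -
        (A.card * L / Fintype.card F) ^ 2 / 2) ≤
      ∑ ω : F × F, ∑ i : ι, (if ∃ a ∈ A, ω.1 * x a + ω.2 ∈ C i then (1 : ℝ) else 0) := by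
    rw [Finset.sum_comm]
    refine le_trans ?_ (Finset.sum_le_sum fun i _ => hit_bound A x hx (C i))
    simp only [hL, Finset.sum_const, Finset.card_univ, Fintype.card_prod, nsmul_eq_mul]
    push_cast
    apply le_of_eq
    field_simp
  obtain ⟨ω, -, hω⟩ := Finset.exists_le_of_sum_le Finset.univ_nonempty h1
  rw [Finset.sum_boole] at hω
  set H := Finset.univ.filter fun i : ι => ∃ a ∈ A, ω.1 * x a + ω.2 ∈ C i with hH
  have h2 : ∀ i : ι, ∃ a : ℝ, i ∈ H → a ∈ A ∧ ω.1 * x a + ω.2 ∈ C i := by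
    intro i
    by_cases hi : i ∈ H
    · obtain ⟨a, ha, ha2⟩ := (Finset.mem_filter.1 hi).2
      exact ⟨a, fun _ => ⟨ha, ha2⟩⟩
    · exact ⟨0, fun h => absurd h hi⟩
  choose g hg using h2
  refine ⟨H.image g, fun a ha => ?_, ?_, ?_⟩
  · obtain ⟨i, hi, rfl⟩ := Finset.mem_image.1 ha
    exact (hg i hi).1
  · rw [Finset.card_image_of_injOn]
    · exact hω
    · intro i hi j hj hij
      have h3 := (hg j hj).2
      rw [← hij] at h3
      rcases hC i i j j _ (hg i hi).2 _ (hg i hi).2 _ h3 _ h3 rfl with h | h <;> exact h.1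
  · intro a ha b hb c hc d hd h
    obtain ⟨i, hi, rfl⟩ := Finset.mem_image.1 ha
    obtain ⟨j, hj, rfl⟩ := Finset.mem_image.1 hb
    obtain ⟨k, hk, rfl⟩ := Finset.mem_image.1 hc
    obtain ⟨l, hl, rfl⟩ := Finset.mem_image.1 hd
    have h3 := hx2 _ (hg i hi).1 _ (hg j hj).1 _ (hg k hk).1 _ (hg l hl).1 h
    rcases hC i j k l _ (hg i hi).2 _ (hg j hj).2 _ (hg k hk).2 _ (hg l hl).2
      (by linear_combination ω.1 * h3) with ⟨rfl, rfl⟩ | ⟨rfl, rfl⟩
    · exact Or.inl ⟨rfl, rfl⟩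
    · exact Or.inr ⟨rfl, rfl⟩

end Count

/-- Ruzsa's Sidon set modulo `p (p - 1)`. -/
lemma exists_ruzsa (p : ℕ) [hp : Fact p.Prime] :
    ∃ r : (ZMod p)ˣ → ℕ, (∀ u, r u < p * (p - 1)) ∧
      ∀ i j k l, ∀ m₁ m₂ m₃ m₄ : ℕ,
        (r i + p * (p - 1) * m₁) + (r j + p * (p - 1) * m₂) =
          (r k + p * (p - 1) * m₃) + (r l + p * (p - 1) * m₄) →
        (i = k ∧ j = l) ∨ (i = l ∧ j = k) := by
  obtain ⟨g, hg⟩ := IsCyclic.exists_generator (α := (ZMod p)ˣ)
  have hord : orderOf g = p - 1 := by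
    rw [orderOf_eq_card_of_forall_mem_zpowers hg, Nat.card_eq_fintype_card, ZMod.card_units]
  have h2 := hp.out.two_le
  have hco : Nat.Coprime p (p - 1) := by
    have : p = (p - 1) + 1 := by omega
    rw [this]; simp
  have h1 : ∀ u : (ZMod p)ˣ, ∃ r : ℕ, r < p * (p - 1) ∧ (r : ZMod p) = u ∧ g ^ r = u := by
    intro u
    obtain ⟨e, he⟩ := (mem_powers_iff_mem_zpowers.2 (hg u))
    refine ⟨Nat.chineseRemainder hco (u : ZMod p).val e,
      Nat.chineseRemainder_lt_mul hco _ _ (by omega) (by omega), ?_, ?_⟩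
    · have := (Nat.chineseRemainder hco (u : ZMod p).val e).2.1
      rw [(ZMod.natCast_eq_natCast_iff _ _ _).2 this, ZMod.natCast_zmod_val]
    · have := (Nat.chineseRemainder hco (u : ZMod p).val e).2.2
      exact (pow_eq_pow_iff_modEq.2 (by rw [hord]; exact this)).trans he
  choose r hr hr1 hr2 using h1
  refine ⟨r, hr, fun i j k l m₁ m₂ m₃ m₄ h => ?_⟩
  have hs : (i : ZMod p) + j = k + l := by
    have := congrArg (fun n : ℕ => (n : ZMod p)) h
    simpa [hr1] using this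
  have hgp : g ^ (p * (p - 1)) = 1 := by
    rw [mul_comm, pow_mul, ← hord, pow_orderOf_eq_one, one_pow]
  have hm : i * j = k * l := by
    have := congrArg (fun n : ℕ => g ^ n) h
    simpa [pow_add, pow_mul g (p * (p - 1)), hgp, hr2] using this
  have hm' : (i : ZMod p) * j = k * l := by exact_mod_cast congrArg Units.val hm
  have h3 : ((i : ZMod p) - k) * ((i : ZMod p) - l) = 0 := by
    linear_combination (i : ZMod p) * hs - hm'
  rcases mul_eq_zero.1 h3 with h4 | h4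
  · left
    exact ⟨Units.ext (sub_eq_zero.1 h4), Units.ext (by linear_combination hs - h4)⟩
  · right
    exact ⟨Units.ext (sub_eq_zero.1 h4), Units.ext (by linear_combination hs - h4)⟩

/-- The finite form of the bound. -/
lemma exists_sidon_prime (A : Finset ℝ) (p : ℕ) (hp : p.Prime)
    (hpN : 4 * (p * (p - 1)) ≤ 3 * A.card) {δ : ℝ} (hδ : 0 < δ) :
    ∃ S ⊆ A, ((p : ℝ) - 1) * (4 / 9 - δ) ≤ S.card ∧
      ∀ a ∈ S, ∀ b ∈ S, ∀ c ∈ S, ∀ d ∈ S,
        a + b = c + d → (a = c ∧ b = d) ∨ (a = d ∧ b = c) := by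
  classical
  have := Fact.mk hp
  obtain ⟨r, hr, hr2⟩ := exists_ruzsa p
  set N := A.card with hN
  set M := p * (p - 1) with hM
  have h2 := hp.two_le
  have hM0 : 0 < M := Nat.mul_pos (by omega) (by omega)
  have hN0 : 0 < N := by omega
  obtain ⟨Q, hQ, hBQ, x, hx, hx2⟩ := exists_prime_model A ⌈N / δ⌉₊
  have := Fact.mk hQ
  set L := 2 * Q / (3 * N) with hL
  have hL1 : L * (3 * N) ≤ 2 * Q := Nat.div_mul_le_self _ _
  have hL2 : 2 * Q < (L + 1) * (3 * N) := by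
    have := Nat.lt_div_mul_add (a := 2 * Q) (b := 3 * N) (by omega)
    rw [add_mul, one_mul]; exact this
  have hML : 2 * (M * L) ≤ Q := by nlinarith
  have hlt : ∀ u : (ZMod p)ˣ, ∀ j < L, r u + M * j < M * L := by
    intro u j hj
    have := hr u
    have : M * (j + 1) ≤ M * L := Nat.mul_le_mul_left _ hj
    nlinarith
  obtain ⟨S, hS, hS2, hS3⟩ := exists_sidon_of_cells A x hx hx2
    (fun u : (ZMod p)ˣ => (Finset.range L).image fun j => ((r u + M * j : ℕ) : ZMod Q)) L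
    (fun u => by
      rw [Finset.card_image_of_injOn, Finset.card_range]
      intro a ha b hb hab
      have ha' := hlt u a (by simpa using ha)
      have hb' := hlt u b (by simpa using hb)
      have h3 := (ZMod.natCast_eq_natCast_iff' _ _ _).1 hab
      rw [Nat.mod_eq_of_lt (by omega), Nat.mod_eq_of_lt (by omega)] at h3
      exact Nat.eq_of_mul_eq_mul_left hM0 (by omega))
    (fun i j k l u hu v hv w hw z hz h => by
      obtain ⟨m₁, h₁, rfl⟩ := Finset.mem_image.1 hu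
      obtain ⟨m₂, h₂, rfl⟩ := Finset.mem_image.1 hv
      obtain ⟨m₃, h₃, rfl⟩ := Finset.mem_image.1 hw
      obtain ⟨m₄, h₄, rfl⟩ := Finset.mem_image.1 hz
      have e₁ := hlt i m₁ (by simpa using h₁)
      have e₂ := hlt j m₂ (by simpa using h₂)
      have e₃ := hlt k m₃ (by simpa using h₃)
      have e₄ := hlt l m₄ (by simpa using h₄)
      rw [← Nat.cast_add, ← Nat.cast_add] at h
      have h3 := (ZMod.natCast_eq_natCast_iff' _ _ _).1 h
      rw [Nat.mod_eq_of_lt (by omega), Nat.mod_eq_of_lt (by omega)] at h3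
      exact hr2 i j k l m₁ m₂ m₃ m₄ h3)
  refine ⟨S, hS, le_trans ?_ hS2, hS3⟩
  rw [ZMod.card_units, ZMod.card, Nat.cast_sub (by omega), Nat.cast_one]
  have hp1 : (0 : ℝ) ≤ (p : ℝ) - 1 := by
    have : (2 : ℝ) ≤ p := by exact_mod_cast h2
    linarith
  apply mul_le_mul_of_nonneg_left _ hp1
  have hQ0 : (0 : ℝ) < Q := by exact_mod_cast hQ.pos
  have hQδ : (N : ℝ) / Q ≤ δ := by
    have : (N : ℝ) / δ ≤ Q := (Nat.le_ceil _).trans (by exact_mod_cast hBQ)
    rw [div_le_iff₀ hδ] at this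
    rw [div_le_iff₀ hQ0]
    linarith
  have hu : (N : ℝ) * L / Q ≤ 2 / 3 := by
    rw [div_le_iff₀ hQ0]
    have : (L : ℝ) * (3 * N) ≤ 2 * Q := by exact_mod_cast hL1
    linarith
  have hl : 2 / 3 - δ ≤ (N : ℝ) * L / Q := by
    have h5 : (2 : ℝ) * Q ≤ (L + 1) * (3 * N) := by exact_mod_cast hL2.le
    have h6 : 2 / 3 ≤ (N : ℝ) * L / Q + N / Q := by
      rw [← add_div, le_div_iff₀ hQ0]
      linarith
    linarith
  have h0 : (0 : ℝ) ≤ (N : ℝ) * L / Q := by positivity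
  rw [← hN]
  nlinarith

/-- Primes in short multiplicative intervals. -/
lemma eventually_prime {t : ℝ} (ht0 : 0 < t) (ht : t < 1) :
    ∀ᶠ y : ℝ in atTop, ∃ p : ℕ, p.Prime ∧ t * y < p ∧ (p : ℝ) ≤ y := by
  have h1 := Pool.Agent.Lib.PNT.theta_tendsto
  have h2 : Tendsto (fun y : ℝ => Chebyshev.theta (t * y) / (t * y) * t) atTop (𝓝 (1 * t)) :=
    (h1.comp (tendsto_id.const_mul_atTop ht0)).mul_const t
  have h3 := (h1.sub h2).eventually (lt_mem_nhds (show (0 : ℝ) < 1 - 1 * t by linarith))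
  filter_upwards [h3, eventually_gt_atTop 0] with y hy hy0
  by_contra hcon
  push Not at hcon
  have h4 : Chebyshev.theta y = Chebyshev.theta (t * y) := by
    unfold Chebyshev.theta
    congr 1
    ext p
    simp only [Finset.mem_filter, Finset.mem_Ioc]
    constructor
    · rintro ⟨⟨h5, h6⟩, h7⟩
      refine ⟨⟨h5, Nat.le_floor ?_⟩, h7⟩
      by_contra h8
      have h9 := hcon p h7 (not_le.1 h8)
      have := (Nat.le_floor_iff hy0.le).1 h6
      linarith
    · rintro ⟨⟨h5, h6⟩, h7⟩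
      exact ⟨⟨h5, h6.trans (Nat.floor_mono (by nlinarith))⟩, h7⟩
  rw [h4] at hy
  have h5 : Chebyshev.theta (t * y) / (t * y) * t = Chebyshev.theta (t * y) / y := by
    field_simp
  rw [h5, sub_self] at hy
  exact lt_irrefl _ hy

/-- The asymptotic form of the bound. -/
theorem eventually_sidon {c : ℝ} (hc : c < 2 / (3 * Real.sqrt 3)) :
    ∀ᶠ N : ℕ in atTop, ∀ A : Finset ℝ, A.card = N →
      ∃ S ⊆ A, c * Real.sqrt N ≤ S.card ∧
        ∀ a ∈ S, ∀ b ∈ S, ∀ c ∈ S, ∀ d ∈ S,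
          a + b = c + d → (a = c ∧ b = d) ∨ (a = d ∧ b = c) := by
  have h3 : (0 : ℝ) < Real.sqrt 3 := by positivity
  have h33 : Real.sqrt 3 * Real.sqrt 3 = 3 := Real.mul_self_sqrt (by norm_num)
  have hk : 2 / (3 * Real.sqrt 3) = 4 / 9 * (Real.sqrt 3 / 2) := by
    field_simp; nlinarith
  -- choose a small parameter
  obtain ⟨η, hη0, hη1, hη⟩ : ∃ η : ℝ, 0 < η ∧ η < 1 / 4 ∧
      c ≤ (1 - 2 * η) * (4 / 9 - η) * (Real.sqrt 3 / 2) := by
    have hcont : Tendsto (fun η : ℝ => (1 - 2 * η) * (4 / 9 - η) * (Real.sqrt 3 / 2))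
        (𝓝[>] 0) (𝓝 ((1 - 2 * 0) * (4 / 9 - 0) * (Real.sqrt 3 / 2))) :=
      (Continuous.tendsto (by fun_prop) 0).mono_left nhdsWithin_le_nhds
    have e1 := hcont.eventually (lt_mem_nhds (show c < _ by rw [hk] at hc; linarith))
    have e2 : ∀ᶠ η : ℝ in 𝓝[>] 0, η < 1 / 4 :=
      nhdsWithin_le_nhds (gt_mem_nhds (by norm_num))
    obtain ⟨η, ⟨h1, h2⟩, h0⟩ := ((e1.and e2).and self_mem_nhdsWithin).exists
    exact ⟨η, h0, h2, h1.le⟩
  have hy : Tendsto (fun N : ℕ => Real.sqrt N * (Real.sqrt 3 / 2)) atTop atTop :=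
    (Real.tendsto_sqrt_atTop.comp tendsto_natCast_atTop_atTop).atTop_mul_const (by positivity)
  filter_upwards [hy.eventually (eventually_prime (t := 1 - η) (by linarith) (by linarith)),
    hy.eventually (eventually_ge_atTop (1 / η))] with N hN hN2 A hA
  obtain ⟨p, hp, hp1, hp2⟩ := hN
  set y := Real.sqrt N * (Real.sqrt 3 / 2) with hydef
  have hNN : Real.sqrt N * Real.sqrt N = N := Real.mul_self_sqrt (Nat.cast_nonneg _)
  have hy2 : 4 * (y * y) = 3 * N := by
    rw [hydef]; nlinarith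
  have hpN : 4 * (p * (p - 1)) ≤ 3 * A.card := by
    have h1 : (4 : ℝ) * (p * p) ≤ 3 * N := by
      have : (0 : ℝ) ≤ p := Nat.cast_nonneg _
      nlinarith
    have h2 : 4 * (p * p) ≤ 3 * N := by exact_mod_cast h1
    have h4 : p * (p - 1) ≤ p * p := Nat.mul_le_mul_left _ (Nat.sub_le _ _)
    omega
  obtain ⟨S, hS, hS2, hS3⟩ := exists_sidon_prime A p hp hpN hη0
  refine ⟨S, hS, le_trans ?_ hS2, hS3⟩
  have h5 : 1 ≤ η * y := by
    rw [div_le_iff₀ hη0] at hN2; linarith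
  have h6 : (1 - 2 * η) * y ≤ (p : ℝ) - 1 := by nlinarith
  calc c * Real.sqrt N ≤ (1 - 2 * η) * (4 / 9 - η) * (Real.sqrt 3 / 2) * Real.sqrt N :=
        mul_le_mul_of_nonneg_right hη (Real.sqrt_nonneg _)
    _ = ((1 - 2 * η) * y) * (4 / 9 - η) := by rw [hydef]; ring
    _ ≤ ((p : ℝ) - 1) * (4 / 9 - η) := mul_le_mul_of_nonneg_right h6 (by linarith)

end Pool.Agent.P.MP_ca07c0_co
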